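import Mathlib
import Pool.Prelude.Def_F_c31e40fa
import Pool.Agent.H462R2.AE5

set_option autoImplicit false

open Filter Topology MeasureTheory

namespace Pool.Agent.Results.MP_c35c17_an.AlmostAllDegreesRotated

/-- The parameters `c` for which `z ^ n + c` has an attracting cycle. -/
def hyp (n : ℕ) : Set ℂ := {c | ∃ m z, N62a1eb23.IsAttractingCycle (fun z => z ^ n + c) m z}

/-- The degrees `n ≥ 2` in which density of hyperbolicity fails at a parameter `c` with
`c ^ (n - 1) = ζ`: such a `c` is in the Multibrot set of power `n` but is not a limit of parameters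
with an attracting cycle. -/
def exceptional (ζ : ℂ) : Set ℕ :=
  {n | 2 ≤ n ∧ ∃ c : ℂ, c ^ (n - 1) = ζ ∧ c ∈ N62a1eb23.multibrotSet n ∧ c ∉ closure (hyp n)}

/-- Density of hyperbolicity at the parameters with a fixed value of `c ^ (n - 1)` holds in almost
all degrees. -/
theorem result :
    -- only finitely many exceptional degrees if `|1 + ζ| ≠ 1` or `1 + ζ` is a root of unity
    (∀ ζ : ℂ, (‖1 + ζ‖ ≠ 1 ∨ ∃ k, 0 < k ∧ (1 + ζ) ^ k = 1) → (exceptional ζ).Finite) ∧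
    -- if `|1 + ζ| = 1` the exceptional degrees are close to the two resonances ...
    (∀ ζ : ℂ, ‖1 + ζ‖ = 1 → ∀ n ∈ exceptional ζ, 10 ^ 6 ≤ n → 1 ≤ n * ‖ζ‖ →
      ‖ζ‖ * (‖(1 + ζ) ^ n - 1‖ * ‖(1 + ζ) ^ (n + 1) + 1‖) ≤ 28 * Real.log n / n) ∧
    -- ... but only finitely many of them are at a resonance
    (∀ ζ : ℂ, ‖1 + ζ‖ = 1 →
      {n | n ∈ exceptional ζ ∧ ((1 + ζ) ^ n = 1 ∨ (1 + ζ) ^ (n + 1) = -1)}.Finite) ∧
    -- at every `ζ` the gaps between the exceptional degrees tend to infinity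
    (∀ ζ : ℂ, ∀ Q : ℕ,
      {n | n ∈ exceptional ζ ∧ ∃ m ∈ exceptional ζ, n < m ∧ m ≤ n + Q}.Finite) ∧
    -- at every `ζ` the exceptional degrees have density zero
    (∀ ζ : ℂ, Tendsto (fun N : ℕ => ((exceptional ζ ∩ Set.Iio N).ncard : ℝ) / N) atTop (𝓝 0)) ∧
    -- at almost every `ζ` with `|1 + ζ| = 1` there are few exceptional degrees
    (∀ s : ℝ, 2 < s → ∀ᵐ θ : ℝ, ∃ K : ℝ, ∀ N : ℕ, 2 ≤ N →
      ((exceptional (Complex.exp (θ * Complex.I) - 1) ∩ Set.Iic N).ncard : ℝ) ≤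
        K * Real.log N ^ s) :=
  ⟨fun _ h => Pool.Agent.H462R2.AE.finite_bad h,
    fun _ h1 n hn hn6 hz => Pool.Agent.H462R2.AE.rate h1 hn6 hz hn,
    fun ζ h1 => by
      by_cases h0 : ζ = 0
      · refine Set.Finite.subset (Pool.Agent.H462R2.AE.finite_bad (ζ := ζ)
          (Or.inr ⟨1, one_pos, by rw [h0]; norm_num⟩)) fun n hn => hn.1
      · obtain ⟨n₀, h⟩ := Pool.Agent.H462R2.AE.bad_small h1 h0 one_pos
        refine (Set.finite_Iio n₀).subset fun n hn => ?_
        by_contra hcon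
        rw [Set.mem_Iio, not_lt] at hcon
        obtain ⟨h2, h3, -⟩ := h n hcon hn.1
        rcases hn.2 with h4 | h4
        · exact h2 h4
        · exact h3 h4,
    fun ζ Q => Pool.Agent.H462R2.AE.gaps ζ Q,
    fun ζ => Pool.Agent.H462R2.AE.density ζ,
    fun _ hs => Pool.Agent.H462R2.AE.ae_count hs⟩

end Pool.Agent.Results.MP_c35c17_an.AlmostAllDegreesRotated
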