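import Mathlib
import Pool.Prelude.Def_F_c31e40fa
import Pool.Agent.H749R2.Area4

set_option autoImplicit false
open MeasureTheory

namespace Pool.Agent.Results.MP_c35c17_an.AreaProportion

/-- The area of the set of parameters `c` in the Multibrot set `M_n` for which `z ^ n + c` has no
attracting cycle is at most `280 log log n / log n` times the area of the set of parameters in
`M_n` for which `z ^ n + c` has no attracting fixed point. -/
theorem result :
    ∀ n : ℕ, 16 ≤ n →
      volume (N62a1eb23.multibrotSet n \
          {c | ∃ m z, N62a1eb23.IsAttractingCycle (fun z => z ^ n + c) m z}) ≤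
        ENNReal.ofReal (280 * Real.log (Real.log n) / Real.log n) *
          volume (N62a1eb23.multibrotSet n \
            {c | ∃ z, N62a1eb23.IsAttractingCycle (fun z => z ^ n + c) 1 z}) :=
  fun _ hn => Pool.Agent.H749R2.Area.proportion' hn

end Pool.Agent.Results.MP_c35c17_an.AreaProportion
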