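import Mathlib
import Pool.Prelude.Def_F_c31e40fa
import Pool.Agent.H713R2.AR.T1

set_option autoImplicit false

open MeasureTheory Filter Metric

namespace Pool.Agent.Results.MP_c35c17_an.FilledJuliaAreaBound

/-- The filled Julia set of `z ^ d + c`. -/
def filledJulia (d : ℕ) (c : ℂ) : Set ℂ :=
  {z | ¬ Tendsto (fun k => (fun z => z ^ d + c)^[k] z) atTop (Bornology.cobounded ℂ)}

/-- Let `V` be a connected open set of parameters which contains no parameter with an attracting
cycle or is contained in the Multibrot set. Holomorphic discs `γ` in `V` through a parameter of the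
Multibrot set have bounded speed there, in terms of the moments of the filled Julia set; for `d = 2`
this reads `‖γ'(0)‖ ≤ (2 / π) * area (filledJulia 2 (γ 0))`. -/
theorem result :
    ∀ d : ℕ, 2 ≤ d → ∀ V : Set ℂ, IsOpen V → IsPreconnected V →
      ((∀ c ∈ V, ¬ ∃ m z, N62a1eb23.IsAttractingCycle (fun z => z ^ d + c) m z) ∨
        V ⊆ N62a1eb23.multibrotSet d) →
      ∀ γ : ℂ → ℂ, DifferentiableOn ℂ γ (ball 0 1) → (∀ t ∈ ball (0 : ℂ) 1, γ t ∈ V) →
      γ 0 ∈ N62a1eb23.multibrotSet d →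
      ∀ a b : ℕ, a + b + 2 = d →
        ‖deriv γ 0‖ ≤ d / Real.pi * √((∫ z in filledJulia d (γ 0), ‖z‖ ^ (2 * a)) *
          ∫ z in filledJulia d (γ 0), ‖z‖ ^ (2 * b)) :=
  fun _ _ _ hV hVc hno _ hγ hγV hc _ _ hab =>
    Pool.Agent.H713R2.AR.main_T1 hab hV hVc hγ hγV hc hno

end Pool.Agent.Results.MP_c35c17_an.FilledJuliaAreaBound
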