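import Mathlib
import Pool.Prelude.Def_F_c31e40fa
import Pool.Agent.H713R2.AR.HA

set_option autoImplicit false

open MeasureTheory Filter Metric

namespace Pool.Agent.Results.MP_c35c17_an.FilledJuliaAreaHarnack

/-- The filled Julia set of `z ^ d + c`. -/
def filledJulia (d : ℕ) (c : ℂ) : Set ℂ :=
  {z | ¬ Tendsto (fun k => (fun z => z ^ d + c)^[k] z) atTop (Bornology.cobounded ℂ)}

/-- Let `V` be a connected open set of parameters which contains no parameter with an attracting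
cycle or is contained in the Multibrot set. Along holomorphic discs in `V` through a parameter of
the Multibrot set the area (and the moments of order `2 a`, `a ≤ d - 2`) of the filled Julia set
satisfies a Harnack inequality. -/
theorem result :
    ∀ d : ℕ, 2 ≤ d → ∀ V : Set ℂ, IsOpen V → IsPreconnected V →
      ((∀ c ∈ V, ¬ ∃ m z, N62a1eb23.IsAttractingCycle (fun z => z ^ d + c) m z) ∨
        V ⊆ N62a1eb23.multibrotSet d) →
      ∀ γ : ℂ → ℂ, DifferentiableOn ℂ γ (ball 0 1) → (∀ t ∈ ball (0 : ℂ) 1, γ t ∈ V) →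
      γ 0 ∈ N62a1eb23.multibrotSet d →
      ∀ a : ℕ, a + 2 ≤ d → ∀ t ∈ ball (0 : ℂ) 1,
        (1 - ‖t‖) / (1 + ‖t‖) * ∫ z in filledJulia d (γ 0), ‖z‖ ^ (2 * a) ≤
            ∫ z in filledJulia d (γ t), ‖z‖ ^ (2 * a) ∧
          ∫ z in filledJulia d (γ t), ‖z‖ ^ (2 * a) ≤
            (1 + ‖t‖) / (1 - ‖t‖) * ∫ z in filledJulia d (γ 0), ‖z‖ ^ (2 * a) :=
  fun _ _ _ hV hVc hno _ hγ hγV hc _ ha _ ht =>
    Pool.Agent.H713R2.AR.harnack_main ha hV hVc hγ hγV hc hno ht

end Pool.Agent.Results.MP_c35c17_an.FilledJuliaAreaHarnack
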