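import Mathlib
import Pool.Prelude.Def_F_c31e40fa
import Pool.Agent.H637R4.PO.Fin2

set_option autoImplicit false

open Filter Topology MeasureTheory Set Metric N62a1eb23

namespace Pool.Agent.Results.MP_c35c17_an.NonHyperbolicSlowDecay

open Pool.Agent.H713R2 Pool.Agent.H713R2.AR Pool.Agent.H637R4.PO

/-- At almost every parameter of the Multibrot set without attracting cycle the areas of the
sublevel sets of the escape rate decay slowly. -/
theorem result :
    ∀ n : ℕ, 2 ≤ n →
      volume {c : ℂ | c ∈ multibrotSet n \ {c | ∃ m z, IsAttractingCycle (fun z => z ^ n + c) m z} ∧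
        ∃ β : ℝ, 1 / 2 < β ∧ ∃ᶠ s in 𝓝[>] (0 : ℝ), volume {z : ℂ | green n c z ≤ s} <
          ENNReal.ofReal (Real.exp (-(Real.log (1 / s)) ^ β))} = 0 := by
  intro n hn
  refine measure_mono_null ?_ (f_null n hn)
  rintro c ⟨hc, hβ⟩
  exact ⟨hc.1, hβ⟩

end Pool.Agent.Results.MP_c35c17_an.NonHyperbolicSlowDecay
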